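import Pool.Agent.helper33.GR2.Spec

/-!
# Project gb: (MP_af9036_an x25, MP_70a088_an x10): Theorem G (closest returns) for `n = 2` with the factor `(1 + log p)^4`

Addition to `Pool/Agent/helper33/GR2/Spec.lean` (project g2:, factor `1 + log SS`, i.e. `p (1 + log p)`). Everything of the specs of helper88 (GR), helper54 (GR3), helper33 (GR2) is used.
NEW IDEA: helper33's cell without zeros `m` (there `τ_m = F/(A_p (w - Z_p))`, `F` holomorphic without zeros, `‖F‖ ≤ M = 4C(1+D) SS`) is compared with helper54's cell `i`, where for `n = 2` (LOC3, `d = 0`) `τ` is almost CONSTANT on an annulus of absolute size. CHP: the two are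
aligned up to `2E`. Let `F = F(Z_p) e^k`, `log (2M) ≤ 2^N`. If `Re k ≤ C₁ N²` on most of the annulus, helper33's argument (Borel-Caratheodory, symmetry with `d = -1`) works with `N²` in place of `log M`. Otherwise `g(r) = max_{|w - Z_p| = r} Re k` is large; there is
a radius with `g(r + d) ≤ 2 g(r)`, `d ~ 1/N` (pigeonhole, `g ≤ 2^N`). At the maximum point `w₀` on this circle `|k'(w₀)| ≥ g/(2r)` (Hopf) and `|k''| ≤ 64 g/d²` near `w₀` (Borel-Caratheodory): on a ball of radius `s ~ d²` about `w₀` the function `k` is linear up to `1/40` on the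
scale `τ = iπ/k'(w₀)`, `|τ| ≤ s/2`: `F(w + τ) ≈ -F(w)`, which cannot be aligned with a constant at `w` and at `w + τ`. So `s² ≤ C E`: `X ≤ K κ N⁴ (1 + log X)`.

RULES. File `Pool/Agent/<seat>/GR2B/XX.lean`: `import Pool.Agent.helper69.GR2B.Spec`, `set_option autoImplicit false`,
`open Complex Metric Set Filter Topology MeasureTheory`, `open MPS (om)`, `open PPS (pre TT fd)`, `open XPS (Df er dens tau)`, `open Pool.Agent.helper16.Multibrot`, `noncomputable section`, `namespace GR`,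
`theorem XX (h : YY_stmt) ... : XX_stmt`. Hypotheses may be: other statements of this file (no circles), all statements of the specs GR (helper88), GR3 (helper54), GR2 (helper33), `PPS`, `MPS`, `XPS`, `V3`, `NLF` (all proved).
Auxiliary lemmas prefixed `XX_`. No `sorry`, no straight double quotes in comments.
-/

set_option autoImplicit false

open Complex Metric Set Filter Topology MeasureTheory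
open MPS (om)
open PPS (pre TT fd)
open XPS (Df er dens tau)
open Pool.Agent.helper16.Multibrot

noncomputable section

namespace GR

/-! ## Pure complex analysis -/

/-- BPG (short, pure): pigeonhole for the growth.
PROOF. Otherwise `g (j+1) > 2 g j` for all `j < N`, so by induction `g j ≥ 2^j g 0` and `g N > 2^N g 0 ≥ 2^N` (`N ≥ 1`). -/
def BPG_stmt : Prop := ∀ (N : ℕ) (g : ℕ → ℝ), 1 ≤ N → 1 ≤ g 0 → g N ≤ 2 ^ N → ∃ j < N, g (j + 1) ≤ 2 * g j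

/-- BHP (short/medium, pure): Hopf's lemma at a maximum point.
PROOF. For `z ∈ ball 0 r`: `φ = k/(2g - k)` is holomorphic on `ball 0 r` (`Re (2g - k) ≥ g > 0`), `‖φ‖ ≤ 1` (`Re k ≤ g` gives `‖k‖ ≤ ‖2g - k‖`; for the open unit ball as target use `g' > g` and `g' → g`, or see the proof of `Complex.borelCaratheodory_zero` and `Complex.schwarz..` in
Mathlib/Analysis/Complex/BorelCaratheodory.lean), `φ 0 = 0`; Schwarz: `‖k z‖ ≤ (‖z‖/r) ‖2g - k z‖`. Let `z = t w`, `0 ≤ t < 1`: `‖k z‖ ≤ t ‖2g - k z‖`. Squaring: with `x = Re k z`, `(1 - t²) ‖k z‖² ≤ t² (4g² - 4 g x)`, `‖k z‖² ≥ x²`, so `(1 - t²) x² + 4 t² g x - 4 t² g² ≤ 0`, whose positive root is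
`x = 2tg/(1+t)`: `Re k (t w) ≤ 2 t g/(1 + t)`, i.e. `Re (k w - k (t w)) ≥ g (1 - t)/(1 + t) ≥ (1 - t) g/2`. The function `t ↦ k (t w)` has the derivative `w k'(w)` at `t = 1` (`HasDerivAt.comp_ofReal`..), so the limit of `(k w - k (t w))/(1 - t)` as `t → 1-` is `w k'(w)`, with real part `≥ g/2`:
`r ‖deriv k w‖ ≥ g/2`. -/
def BHP_stmt : Prop := ∀ (k : ℂ → ℂ) (r g : ℝ) (w : ℂ), 0 < r → 0 < g → DifferentiableOn ℂ k (ball 0 r) →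
  DifferentiableAt ℂ k w → k 0 = 0 → (∀ z ∈ ball (0 : ℂ) r, (k z).re ≤ g) → ‖w‖ = r → (k w).re = g →
  g / (2 * r) ≤ ‖deriv k w‖

/-- BOK (medium, pure): a place where `k` is almost linear with a large slope. uses: BPG, BHP.
PROOF. `d = 1/(5N)`, `s = 1/(409600 N²) = d²/16384`, `r_j = 7/10 + j d`, `j = 0..N` (`r_N = 9/10`). `w_j`: a point with `‖w_j‖ = r_j` and `‖exp (k z)‖ ≤ ‖exp (k w_j)‖` for `z ∈ closedBall 0 r_j` (`Complex.exists_mem_frontier_isMaxOn_norm` for `exp ∘ k` on `ball 0 r_j`), `g_j = Re k(w_j)`; so `Re k ≤ g_j` on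
`closedBall 0 r_j`. `g_0 ≥ 6000000 N² ≥ 1`, `g_N ≤ 2^N`. BPG: `j < N` with `g_(j+1) ≤ 2 g_j`; `w = w_j`, `g = g_j ≥ g_0` (`closedBall 0 r_0 ⊆ closedBall 0 r_j`), `r = r_j ≤ 9/10`. BHP: `‖k' w‖ ≥ g/(2r) ≥ g/2`, `τ = iπ/k'(w)`, `‖τ‖ ≤ 2π/g ≤ 1.0473·10⁻⁶/N² ≤ s/2 = 1.2207·10⁻⁶/N²`.
On `ball w d ⊆ closedBall 0 r_(j+1)`: `Re k ≤ 2g`, so `Re (k - k w) ≤ g`: `Complex.borelCaratheodory_zero`: `‖k z - k w‖ ≤ 2g ‖z - w‖/(d - ‖z - w‖)`, in particular `≤ 2g` on `ball w (d/2)` and, for `z ∈ ball w s`, `≤ 2g s/(d-s) ≤ g`, so `Re k z ≥ 0`. Cauchy (`Complex.norm_deriv_le_of_forall_mem_sphere_norm_le`):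
`‖k'‖ ≤ 2g/(d/4) = 8g/d` on `ball w (d/4)`, then for `z ∈ ball w (d/8)` `‖k''‖ ≤ (8g/d)/(d/8) = 64 g/d²` (or Schwarz for `k' - k'(w)`), `‖k' z - k' w‖ ≤ 64 g ‖z-w‖/d² ≤ 64 g s/d²` on `ball w s` (`s ≤ d/8`). For `z ∈ ball w (s/2)`: `z, z + τ ∈ ball w s` (convex), mean value inequality for `k ζ - k'(w) ζ`:
`‖k (z+τ) - k z - iπ‖ ≤ (64 g s/d²) ‖τ‖ ≤ 128 π s/d² = 128π/16384 ≤ 0.0246 =: δ`. `exp(iπ + x) = -exp x`, `‖exp x - 1‖ ≤ δ + δ² ≤ 1/20` (`Complex.norm_exp_sub_one_sub_id_le` or `norm_exp_sub_one_le`: `2δ ≤ 1/20`). -/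
def BOK_stmt : Prop := ∀ (k : ℂ → ℂ) (N : ℕ), 1 ≤ N → DifferentiableOn ℂ k (ball 0 1) → k 0 = 0 →
  (∀ z ∈ ball (0 : ℂ) 1, (k z).re ≤ 2 ^ N) → (∃ z ∈ closedBall (0 : ℂ) (7 / 10), 6000000 * (N : ℝ) ^ 2 ≤ (k z).re) →
  ∃ w τ : ℂ, 7 / 10 ≤ ‖w‖ ∧ ‖w‖ ≤ 9 / 10 ∧ ‖τ‖ ≤ 1 / (819200 * (N : ℝ) ^ 2) ∧
    ∀ z ∈ ball w (1 / (819200 * (N : ℝ) ^ 2)), 0 ≤ (k z).re ∧ ‖Complex.exp (k (z + τ) - k z) + 1‖ ≤ 1 / 20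

/-- BOF (short/medium, pure): the alternative for functions without zeros. uses: BOK.
PROOF. Logarithm: `h` on `ball a r` with `exp h = F` (`Pool.Agent.helper98.ILF.exists_lift_exp`, as in helper41/GR2/BCZ.lean), `k z = h (a + r z) - h a` on `ball 0 1`, `k 0 = 0`, `Re k z = log ‖F (a + r z)‖ - log ‖F a‖ ≤ log M + log 2 = log (2M) ≤ 2^N`. If `Re k z ≤ 6000000 N²` for all `z ∈ closedBall 0 (7/10)`: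
first alternative (`‖F (a + r z)‖ = exp (Re k z) ‖F a‖`). Otherwise BOK gives `w', τ'`; `w = a + r w'`, `τ = r τ'`; for `y ∈ ball w (r/(819200 N²))`, `y = a + r z`: `‖F y‖ = exp (Re k z) ‖F a‖ ≥ 1/2`, `F (y + τ)/F y = exp (k (z + τ') - k z)` (`y + τ ∈ ball a r` as
`‖z + τ'‖ < 9/10 + 2/819200 < 1`). -/
def BOF_stmt : Prop := ∀ (F : ℂ → ℂ) (a : ℂ) (r M : ℝ) (N : ℕ), 0 < r → 1 ≤ N → DifferentiableOn ℂ F (ball a r) →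
  (∀ w ∈ ball a r, F w ≠ 0 ∧ ‖F w‖ ≤ M) → 1 / 2 ≤ ‖F a‖ → Real.log (2 * M) ≤ 2 ^ N →
  (∀ w ∈ closedBall a (7 / 10 * r), ‖F w‖ ≤ Real.exp (6000000 * (N : ℝ) ^ 2) * ‖F a‖) ∨
  ∃ w τ : ℂ, 7 / 10 * r ≤ ‖w - a‖ ∧ ‖w - a‖ ≤ 9 / 10 * r ∧ ‖τ‖ ≤ r / (819200 * (N : ℝ) ^ 2) ∧
    ∀ z ∈ ball w (r / (819200 * (N : ℝ) ^ 2)), 1 / 2 ≤ ‖F z‖ ∧ ‖F (z + τ) / F z + 1‖ ≤ 1 / 20

/-- BLC (short/medium): the local form in a cell without zeros, with a bound `e^L`. uses: BCZ. (Compare helper20/GR2/LC2.lean: LC2_alg and the end of the proof.)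
PROOF. BCZ with `M = e^L ≥ 1`: `1 + log (2 e^L) = 1 + log 2 + L ≤ 2 + L`, so `‖F w/F a - 1‖ ≤ 1/32` for `‖w - a‖ ≤ r/(256 (2 + L)) = 2ρ`. For `ρ/2 < ‖w‖ < ρ`: `‖w - a‖ ≤ ρ + ρ/64 ≤ 2ρ` and `< r`, `‖w - a‖ ≥ ρ/2 - ρ/64 > 0`, `T w = F w/(A' (w - a))`,
`T w * A' * w = F a * (F w/F a) * (w/(w - a))`, `‖w/(w - a) - 1‖ = ‖a‖/‖w - a‖ ≤ (ρ/64)/(31ρ/64) = 1/31`; LC2_alg. -/
def BLC_stmt : Prop := ∀ (F T : ℂ → ℂ) (a A' : ℂ) (r L ρ : ℝ), 0 < r → 0 ≤ L → A' ≠ 0 → DifferentiableOn ℂ F (ball a r) →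
  (∀ w ∈ ball a r, F w ≠ 0 ∧ ‖F w‖ ≤ Real.exp L) → ‖F a - 1‖ ≤ 1 / 64 →
  (∀ w ∈ ball a r, w ≠ a → F w = A' * (w - a) * T w) → ρ = r / (512 * (2 + L)) → ‖a‖ ≤ ρ / 64 →
  ∀ w : ℂ, ρ / 2 < ‖w‖ → ‖w‖ < ρ → ‖T w - A'⁻¹ * w ^ (-1 : ℤ)‖ ≤ 1 / 4 * ‖A'⁻¹ * w ^ (-1 : ℤ)‖

/-- BPA (short, pure): the pair inequality, scaled. uses: PAI.
PROOF. PAI with `v = y₁/t`, `w = ν/t`, `a₁ = y₁/t`, `a₂ = y₂/t`, `b_j = x_j/t`; multiply by `t`; `x + y = y + x`. -/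
def BPA_stmt : Prop := ∀ (t : ℝ) (ν x₁ x₂ y₁ y₂ : ℂ), 0 < t → t ≤ ‖ν‖ → ‖x₁ - ν‖ ≤ 1 / 16 * ‖ν‖ →
  ‖x₂ - ν‖ ≤ 1 / 16 * ‖ν‖ → t ≤ ‖y₁‖ → ‖y₁ + y₂‖ ≤ 1 / 16 * ‖y₁‖ →
  t / 8 ≤ (‖x₁‖ + ‖y₁‖ - ‖x₁ + y₁‖) + (‖x₂‖ + ‖y₂‖ - ‖x₂ + y₂‖)

/-- BRQ (short, pure): `F/(A' u)` changes its sign together with `F`.
PROOF. `q = f₂/f₁`, `‖q + 1‖ ≤ 1/20`, `‖q‖ ≤ 21/20`. `f₁/(A' u) + f₂/(A' (u+τ)) = (f₁/(A' u)) (1 + q u/(u+τ))`, `u/(u+τ) = 1 - τ/(u+τ)`, so `‖1 + q - q τ/(u+τ)‖ ≤ 1/20 + (21/20)/100 ≤ 1/16`. -/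
def BRQ_stmt : Prop := ∀ (A' f₁ f₂ u τ : ℂ), A' ≠ 0 → f₁ ≠ 0 → ‖f₂ / f₁ + 1‖ ≤ 1 / 20 → u ≠ 0 → u + τ ≠ 0 →
  100 * ‖τ‖ ≤ ‖u + τ‖ → ‖f₁ / (A' * u) + f₂ / (A' * (u + τ))‖ ≤ 1 / 16 * ‖f₁ / (A' * u)‖

/-- BCS (short/medium): the translation argument.
PROOF. `v z = ofReal (L z)`. `∫_{ball w (s/2)} v(z + τ) = ∫_{ball (w+τ) (s/2)} v ≤ ∫_{ball w s} v` (translation invariance: `(measurePreserving_add_right volume τ).restrict_preimage..`, `lintegral_comp_emb` with `measurableEmbedding_addRight`; `‖τ‖ ≤ s/2`). `ofReal t ≤ ofReal (L z + L (z+τ)) ≤ v z + v (z+τ)`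
(`ENNReal.ofReal_add_le`). So `ofReal t * volume (ball w (s/2)) ≤ 2 ofReal e`, `volume = π s²/4` (`Complex.volume_ball`): `t π s²/4 ≤ 2e`, `π ≥ 2`. Measurability (`lintegral_add_left'`): `z ↦ v z` on `ball w (s/2) ⊆ ball w s`. -/
def BCS_stmt : Prop := ∀ (L : ℂ → ℝ) (w τ : ℂ) (s t e : ℝ), 0 < s → 0 < t → 0 ≤ e → ‖τ‖ ≤ s / 2 →
  AEMeasurable L (volume.restrict (ball w s)) → (∀ z ∈ ball w (s / 2), t ≤ L z + L (z + τ)) →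
  ∫⁻ z in ball w s, ENNReal.ofReal (L z) ≤ ENNReal.ofReal e → t * s ^ 2 ≤ 4 * e

/-- BNN (short, pure): the choice of `N`.
PROOF. `N = ⌈log₂ (Q (1 + log S))⌉₊ + 1` (`Real.logb 2`): `2^N ≥ 2^(logb ..) = Q (1 + log S)`, `N ≤ 2 + (log Q + log (1 + log S))/log 2 ≤ (2 + 2 log Q + 2)(1 + log (1 + log S))` as `1/log 2 ≤ 2`. -/
def BNN_stmt : Prop := ∀ Q : ℝ, 1 ≤ Q → ∃ K : ℝ, 1 ≤ K ∧ ∀ S : ℝ, 1 ≤ S → ∃ N : ℕ, 1 ≤ N ∧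
  Q * (1 + Real.log S) ≤ 2 ^ N ∧ (N : ℝ) ≤ K * (1 + Real.log (1 + Real.log S))

/-! ## The core -/

/-- BSY (medium): the symmetry inequality gives a bound when `τ_m ≈ κ w^d`, `n ∤ d + 2`. uses: SYM, PH3. (Extract of helper21/GR3/COR3.lean, first case; COR3_area, COR3_om may be copied with the prefix BSY_.)
PROOF. On the annulus `ρ/2 < ‖w‖ < ρ` (in `ball 0 (R/(8C))`, area `≥ 2ρ²`): PH3 with `h k = tau (om^k w)`, `‖om‖ = 1`: the integrand of SYM is `≥ (n/2) ‖κ w^d‖ ≥ (n/2) t`. So `ofReal (n t/2) ofReal (2ρ²) ≤ 2n ofReal E`: `n t ρ² ≤ 2 n E`. -/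
def BSY_stmt : Prop := ∀ (C : ℝ) (n : ℕ) (c : ℂ) (p q : ℕ) (G : ℕ → ℂ → ℂ) (E : ℝ), KQ C → Ret n c p q →
  Tow n c p q G → 16 * C ≤ X n c p q → Measurable (Df (fp n c) (B n c p q)) → Measurable (er (fp n c) (B n c p q)) →
  Eg n c (B n c p q) E → 0 ≤ E → ∀ m < p, ∀ (κ : ℂ) (d : ℤ) (ρ t : ℝ), ¬ ((n : ℤ) ∣ d + 2) → 0 < ρ →
  ρ ≤ R n c q / (8 * C) → 0 ≤ t → (∀ w : ℂ, ρ / 2 < ‖w‖ → ‖w‖ < ρ →
    ‖tau (B n c p q) G m w - κ * w ^ d‖ ≤ 1 / 4 * ‖κ * w ^ d‖ ∧ t ≤ ‖κ * w ^ d‖) → t * ρ ^ 2 ≤ 2 * E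

/-- BCI (medium): the cell `i`: either the bound holds or `τ_i` is almost constant on an annulus of absolute size. uses: NAT, CEL, MD3, GUN, SCA, LOC3, BSY. (Copy of the first part of helper21/GR3/COR3.lean.)
PROOF. LOC3 with `Γ = 16C²`, `C₂ = 2000`, `C₃ = 32C²D`, `ρ₁ = 1/(16C)`, `η = 1/16`, `Λ₁ = 1`: `X₀, c₀`. `X₁ = 16C + 2 C X₀ + X₀ + 2`. MD3: `i, a, b`; GUN, SCA at `i`; `‖u₀‖ = 1/X ≤ 1/X₀`, `‖xc - 1‖ ≤ ‖lam‖ ≤ 2C/X ≤ 1/X₀`. LOC3: `ρ, κ, d` with `τ (R u) = θ h(u)`, `‖h u - κ u^d‖ ≤ (1/16)‖κ u^d‖`, `‖κ u^d‖ ≥ 1` for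
`ρ/2 < ‖u‖ < ρ`, `‖θ‖ = sg/R²`, `d ∈ {-1, 0, 1}`. If `d ≠ 0` then `¬ (2:ℤ) ∣ d + 2`: BSY with `m = p - i`, radius `ρR`, `κ' = θ κ R^(-d)`, `t = sg/R²`: `(sg/R²) ρ² R² ≤ 2E`, `sg c₀² ≤ 2E`: first alternative. If `d = 0`: `m = p - i`, `ν = θ κ`: second alternative. -/
def BCI_stmt : Prop := ∀ C D : ℝ, KQ C → KD D → ∃ X₁ c₀ : ℝ, 16 * C + 2 ≤ X₁ ∧ 0 < c₀ ∧
  ∀ (c : ℂ) (p q : ℕ) (G : ℕ → ℂ → ℂ) (E : ℝ), Ret 2 c p q → Tow 2 c p q G → X₁ ≤ X 2 c p q →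
  Measurable (Df (fp 2 c) (B 2 c p q)) → Measurable (er (fp 2 c) (B 2 c p q)) → Eg 2 c (B 2 c p q) E → 0 ≤ E →
  sg C 2 c p q * c₀ ^ 2 ≤ 2 * E ∨ ∃ m < p, ∃ (ρ : ℝ) (ν : ℂ), c₀ ≤ ρ ∧ ρ ≤ 1 / (16 * C) ∧
    sg C 2 c p q / R 2 c q ^ 2 ≤ ‖ν‖ ∧ ∀ w : ℂ, ρ / 2 * R 2 c q < ‖w‖ → ‖w‖ < ρ * R 2 c q →
      ‖tau (B 2 c p q) G m w - ν‖ ≤ 1 / 16 * ‖ν‖

/-- BCF (medium): the cell without zeros. uses: ZRO, KFN, KUB, CEL, NAT. (Copy of the middle part of helper20/GR2/LC2.lean.)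
PROOF. ZRO: `m`. KFN: `F = K`. On `closedBall (Z p) (R/(16C)) ⊆ ball 0 (R/(8C))` the maximum principle and KUB give `‖F‖ ≤ M := 4C(1+D) SS`. `F (Z p) = xc`, `‖xc - 1‖ ≤ ‖lam‖ ≤ 2C/X ≤ 1/64`. -/
def BCF_stmt : Prop := ∀ (C D : ℝ) (n : ℕ) (c : ℂ) (p q : ℕ) (G : ℕ → ℂ → ℂ), KQ C → KD D → Ret n c p q →
  Tow n c p q G → 128 * C ≤ X n c p q → ∃ m < p, ∃ F : ℂ → ℂ,
    DifferentiableOn ℂ F (ball (Z n c p) (R n c q / (16 * C))) ∧ ‖F (Z n c p) - 1‖ ≤ 1 / 64 ∧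
    ∀ w ∈ ball (Z n c p) (R n c q / (16 * C)), F w ≠ 0 ∧ ‖F w‖ ≤ 4 * C * (1 + D) * SS n c p ∧
      (w ≠ Z n c p → F w = A n c p * (w - Z n c p) * tau (B n c p q) G m w)

/-- BAB (LONG/medium): the comparison of the two cells. uses: BOF, BLC, BSY, BPA, BRQ, BCS, CHP, NAT.
PROOF. `Rq = R 2 c q`, `a = Z p`, `t = sg/Rq² = 1/(16C²‖A p‖Rq)`, `r = (49/50) ρ Rq ≤ Rq/(16C)`. `‖a‖ = Rq/X ≤ ρ Rq/50`. `1/2 ≤ ‖F a‖ ≤ 2`. BOF for `F, a, r, M, N`.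
CASE A: on `ball a (7r/10)`: `‖F‖ ≤ exp (6000000 N²) · 2 ≤ exp L`, `L = 6000000 N² + 1`. BLC with `r_A = 7r/10`, `A' = A p`, `T = tau_m`, `ρ_A = r_A/(512 (2 + L))`; `‖a‖ ≤ ρ_A/64`: `2 + L ≤ 6000003 N²`, `ρ_A ≥ (343/500) ρ Rq/(512·6000003 N²) ≥ ρ Rq/(5·10⁹ N²)`, and `‖a‖ = Rq/X ≤ ρ Rq/(10¹² N²)` by hypothesis. BSY with `m = m'`
`κ = (A p)⁻¹`, `d = -1` (`¬ 2 ∣ 1`), radius `ρ_A ≤ Rq/(8C)`, `t' = 1/(‖A p‖ ρ_A)`: `ρ_A/‖A p‖ ≤ 2E`. `sg = Rq/(16C²‖A p‖)`, so `sg ρ/(N²) ≤ Rq ρ/(‖A p‖ N²) ≤ 5·10⁹ ρ_A/‖A p‖ ≤ 10¹⁰ E`, and `ρ ≥ ρ⁴`, `N² ≤ N⁴`: `sg ρ⁴ ≤ 10¹⁶ E N⁴`.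
CASE B: `w₀, τ`; `s = r/(409600 N²)`, `‖τ‖ ≤ s/2`; every `z ∈ ball w₀ s` satisfies `‖z‖ ≤ ‖a‖ + 9r/10 + s < ρ Rq` and `‖z‖ ≥ 7r/10 - s - ‖a‖ > ρ Rq/2`, also `‖z - a‖ ≥ 69r/100`. For `z ∈ ball w₀ (s/2)`: `x₁ = tau_m z`, `x₂ = tau_m (z+τ)` (within `‖ν‖/16` of `ν`, `‖ν‖ ≥ t`), `y₁ = tau_m' z = F z/(A p (z - a))`, `y₂ = tau_m' (z + τ)`:
`‖y₁‖ ≥ (1/2)/(‖A p‖ Rq) ≥ t` (`‖z - a‖ ≤ Rq`), BRQ (`u = z - a`, `100‖τ‖ ≤ 50 s ≤ r/8192 ≤ ‖u + τ‖`): `‖y₁ + y₂‖ ≤ ‖y₁‖/16`. BPA: `t/8 ≤ L z + L (z + τ)`, `L = ‖tau_m‖ + ‖tau_m'‖ - ‖tau_m + tau_m'‖`. CHP on `ball 0 (Rq/(8C)) ⊇ ball w₀ s`: `∫ ofReal L ≤ 2 ofReal E = ofReal (2E)`. BCS with `t/8`, `e = 2E`: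
`(t/8) s² ≤ 8E`, `t s² ≤ 64 E`: `(sg/Rq²) ((49/50) ρ Rq)²/(409600² N⁴) ≤ 64 E`, so `sg ρ² ≤ 1.2·10¹³ E N⁴`, `ρ⁴ ≤ ρ²`. -/
def BAB_stmt : Prop := ∀ (C : ℝ) (c : ℂ) (p q : ℕ) (G : ℕ → ℂ → ℂ) (E : ℝ) (m m' N : ℕ) (ρ M : ℝ) (ν : ℂ) (F : ℂ → ℂ),
  KQ C → Ret 2 c p q → Tow 2 c p q G → 16 * C ≤ X 2 c p q → Measurable (B 2 c p q) →
  Measurable (Df (fp 2 c) (B 2 c p q)) → Measurable (er (fp 2 c) (B 2 c p q)) → Eg 2 c (B 2 c p q) E → 0 ≤ E →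
  m < p → m' < p → 1 ≤ N → 0 < ρ → ρ ≤ 1 / (16 * C) → 10 ^ 12 * (N : ℝ) ^ 2 ≤ ρ * X 2 c p q → Real.log (2 * M) ≤ 2 ^ N →
  sg C 2 c p q / R 2 c q ^ 2 ≤ ‖ν‖ → (∀ w : ℂ, ρ / 2 * R 2 c q < ‖w‖ → ‖w‖ < ρ * R 2 c q →
    ‖tau (B 2 c p q) G m w - ν‖ ≤ 1 / 16 * ‖ν‖) →
  DifferentiableOn ℂ F (ball (Z 2 c p) (R 2 c q / (16 * C))) → ‖F (Z 2 c p) - 1‖ ≤ 1 / 64 →
  (∀ w ∈ ball (Z 2 c p) (R 2 c q / (16 * C)), F w ≠ 0 ∧ ‖F w‖ ≤ M ∧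
    (w ≠ Z 2 c p → F w = A 2 c p * (w - Z 2 c p) * tau (B 2 c p q) G m' w)) →
  sg C 2 c p q * ρ ^ 4 ≤ 10 ^ 16 * E * (N : ℝ) ^ 4

/-- BCOR (medium): the Core Theorem for `n = 2` with the factor `(1 + log (1 + log SS))^4`. uses: V3.KO1, V3.KO3, NAT, MSB, ERI, ENG, TOW, BCI, BCF, BAB, BNN.
PROOF. `C, D, CE` as in COR3; `X₁, c₀` from BCI; `SS ≥ 1` (LC2_SS in helper20/GR2/LC2.lean), `M = 4C(1+D) SS`, `log (2M) = log (8C(1+D)) + log SS ≤ Q (1 + log SS)`, `Q = 1 + log (8C(1+D))`; BNN: `N ≤ K₁ (1 + log (1 + log SS)) =: K₁ W`. If `X ≤ X₁ + 128 C` or `c₀ X ≤ 10¹² N²` the claim holds (`N² ≤ K₁² W² ≤ K₁² W⁴`,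
`κ (1 + log X) ≥ 1`). Otherwise `E = 3ε` as in COR3 (`ε = CE κ (‖Z p‖/‖A p‖)(1 + log X)`), BCI: first alternative: `sg c₀² ≤ 6ε`. Second: BCF, BAB: `sg c₀⁴ ≤ sg ρ⁴ ≤ 3·10¹⁶ ε N⁴`. With `sg = X ‖Z p‖/(16 C² ‖A p‖)` cancel `‖Z p‖/‖A p‖`: `X ≤ K κ (1 + log X) N⁴`. -/
def BCOR_stmt : Prop := ∃ K : ℝ, 1 ≤ K ∧ ∀ (c : ℂ) (p q : ℕ) (κ : ℝ), Ret 2 c p q → 1 ≤ κ →
  ‖S 2 c p - lam 2 c p q * S 2 c q‖ ≤ κ * (‖Z 2 c p‖ / ‖A 2 c p‖) * (1 + Real.log (X 2 c p q)) →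
  X 2 c p q ≤ K * κ * (1 + Real.log (X 2 c p q)) * (1 + Real.log (1 + Real.log (SS 2 c p))) ^ 4

/-! ## Theorems -/

/-- BG (short): THEOREM G for `n = 2`, factor `(1 + log (1 + log SS))^4` (theorem BG (h : BCOR_stmt) ... : BG_stmt). uses: BCOR, MIS, BDM, KAP. PROOF. COPY of helper21/GR2/G2F.lean (`1 + log SS` replaced by `(1 + log (1 + log SS))^4 ≥ 1`). -/
def BG_stmt : Prop := ∃ K : ℝ, ∀ c ∈ multibrot 2, ∀ p : ℕ, 2 ≤ p → ∀ x : ℝ, 1 ≤ x →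
  (∀ j, 1 ≤ j → j < p → x * ‖Z 2 c p‖ ≤ ‖Z 2 c j‖) →
  Metric.infDist c (hyperbolic 2) ≤ K * (1 + Real.log (1 + Real.log (SS 2 c p))) ^ 4 * (1 + Real.log x) / x

/-- BGP (short): THEOREM G for the quadratic family, `(1 + log p)^4`. uses: BG, WEX.
PROOF. `c ∈ hyperbolic 2`: `infDist = 0`. Otherwise WEX: `1 + log SS ≤ 20 p (1 + log p) ≤ 20 p²`(`1 + log p ≤ p`), so `1 + log (1 + log SS) ≤ 1 + log 20 + 2 log p ≤ 4 (1 + log p)` (`log 20 ≤ 3`), fourth power `256 (1 + log p)^4`; replace `K` by `|K|`. -/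
def BGP_stmt : Prop := ∃ K : ℝ, ∀ c ∈ multibrot 2, ∀ p : ℕ, 2 ≤ p → ∀ x : ℝ, 1 ≤ x →
  (∀ j, 1 ≤ j → j < p → x * ‖Z 2 c p‖ ≤ ‖Z 2 c j‖) →
  Metric.infDist c (hyperbolic 2) ≤ K * (1 + Real.log p) ^ 4 * (1 + Real.log x) / x

/-- BGL (short/medium): THEOREM G' for `n = 2` (line fields). uses: BCOR, LFZ, LFD, BDM, NAT, NLF.CTB, NLF.NZ, NLF.LFI, WEX. PROOF. COPY of helper97/GR2/GL2F.lean; `c ∉ hyperbolic 2` and `c ∈ multibrot 2` are obtained there (no attracting cycle), then WEX as in BGP. -/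
def BGL_stmt : Prop := ∃ K : ℝ, ∀ (c : ℂ) (μ : ℂ → ℂ),
  Pool.Agent.helper98.ILF.IsInvariantLineField (fun z : ℂ => z ^ 2 + c) μ → ∀ p : ℕ, 2 ≤ p → ∀ x : ℝ, 1 ≤ x →
  (∀ j, 1 ≤ j → j < p → x * ‖Z 2 c p‖ ≤ ‖Z 2 c j‖) →
  ‖∫ z : ℂ, μ z / (z - c)‖ * x ≤ K * (1 + Real.log p) ^ 4 * (1 + Real.log x)

end GR
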